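import Pool.Agent.helper63.NU.Defs4
import Pool.Agent.helper63.NU.Stub.M2h
import Pool.Agent.helper63.NU.Stub.M3a
import Pool.Agent.helper63.NU.Stub.M3b

set_option autoImplicit false
set_option linter.all false

/-! # MP_737c0a_gt, module M3c: assembly -/

open MeasureTheory Filter Topology Set
open scoped ContDiff Manifold Matrix ENNReal ComplexOrder

noncomputable section

namespace Pool.Agent.helper63.NU

namespace M3c

variable {n : ℕ}

theorem fderiv_smul_real (c : ℝ) (f : E n → ℂ) (y : E n) :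
    fderiv ℝ (fun z => (c : ℂ) * f z) y = c • fderiv ℝ f y := by
  have h1 : (fun z => (c : ℂ) * f z) = c • f := by
    funext z
    simp
  rw [h1]
  rw [fderiv_const_smul_of_field]
  rfl

theorem dz_smul (c : ℝ) (j : Fin n) (f : E n → ℂ) (y : E n) :
    dz j (fun z => (c : ℂ) * f z) y = c * dz j f y := by
  unfold dz
  rw [fderiv_smul_real]
  simp only [ContinuousLinearMap.smul_apply, Complex.real_smul]
  ring

theorem db_smul (c : ℝ) (j : Fin n) (f : E n → ℂ) (y : E n) :
    db j (fun z => (c : ℂ) * f z) y = c * db j f y := by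
  unfold db
  rw [fderiv_smul_real]
  simp only [ContinuousLinearMap.smul_apply, Complex.real_smul]
  ring

theorem lev_smul_add (c κ : ℝ) (f : E n → ℝ) (y : E n) (j k : Fin n) :
    lev (fun z => c * f z + κ) y j k = c * lev f y j k := by
  simp only [lev, Matrix.of_apply]
  rw [← dz_smul]
  congr 1
  funext z
  rw [← db_smul]
  unfold db
  congr 2
  · congr 1
    have : (fun z => (((c * f z + κ : ℝ)) : ℂ)) = fun z => (c : ℂ) * ((f z : ℝ) : ℂ) + (κ : ℂ) := by
      funext z
      push_cast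
      ring
    rw [this, fderiv_add_const]
  · congr 2
    have : (fun z => (((c * f z + κ : ℝ)) : ℂ)) = fun z => (c : ℂ) * ((f z : ℝ) : ℂ) + (κ : ℂ) := by
      funext z
      push_cast
      ring
    rw [this, fderiv_add_const]

/-- charts of a holomorphic map are differentiable -/
theorem differentiableAt_charts {M M' : Type*} [TopologicalSpace M] [ChartedSpace (E n) M]
    [IsManifold 𝓘(ℂ, E n) ω M] [TopologicalSpace M'] [ChartedSpace (E n) M']
    [IsManifold 𝓘(ℂ, E n) ω M'] {Φ : M' → M} (hΦ : ContMDiff 𝓘(ℂ, E n) 𝓘(ℂ, E n) ω Φ)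
    {e : Ch n M} (he : e ∈ atlas (E n) M) {e' : Ch n M'} (he' : e' ∈ atlas (E n) M') {x : M'}
    (hx : x ∈ e'.source) (hx' : Φ x ∈ e.source) :
    DifferentiableAt ℂ (fun z => e (Φ (e'.symm z))) (e' x) := by
  have h1 : ContMDiffAt 𝓘(ℂ, E n) 𝓘(ℂ, E n) ω e'.symm (e' x) :=
    (contMDiffOn_symm_of_mem_maximalAtlas (I := 𝓘(ℂ, E n)) (n := ω)
      (IsManifold.subset_maximalAtlas he')).contMDiffAt
      (e'.open_target.mem_nhds (e'.map_source hx))
  have h2 : ContMDiffAt 𝓘(ℂ, E n) 𝓘(ℂ, E n) ω e (Φ x) :=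
    (contMDiffOn_of_mem_maximalAtlas (I := 𝓘(ℂ, E n)) (n := ω)
      (IsManifold.subset_maximalAtlas he)).contMDiffAt (e.open_source.mem_nhds hx')
  have h3 : ContMDiffAt 𝓘(ℂ, E n) 𝓘(ℂ, E n) ω Φ (e'.symm (e' x)) := hΦ _
  have h4 : ContMDiffAt 𝓘(ℂ, E n) 𝓘(ℂ, E n) ω (Φ ∘ e'.symm) (e' x) := h3.comp _ h1
  have h5 : ContMDiffAt 𝓘(ℂ, E n) 𝓘(ℂ, E n) ω (e ∘ (Φ ∘ e'.symm)) (e' x) := by
    refine ContMDiffAt.comp _ ?_ h4
    simpa [e'.left_inv hx] using h2
  have h6 := (contMDiffAt_iff_contDiffAt.1 h5)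
  exact h6.differentiableAt (by simp)

end M3c

variable {n : ℕ} {M : Type*} [TopologicalSpace M] [ChartedSpace (E n) M]
  [IsManifold 𝓘(ℂ, E n) ω M] [CompactSpace M] [T2Space M] [MeasurableSpace M] [BorelSpace M]
  {φ : Fam n M ℝ} {μ : Measure M}

/-- a Kähler–Einstein metric on a manifold biholomorphic to `ℂP^n` is isometric to the
Fubini–Study metric up to a factor -/
theorem iso_of_ke (hn : 0 < n) (hφ : IsPos 1 φ) (hμ : IsDens μ φ) {c0 : ℝ}
    (hdl : ∀ x, dl φ x = c0) (Φ : Diffeomorph 𝓘(ℂ, E n) 𝓘(ℂ, E n) M (CP n) ω) {lam : ℝ}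
    (hlam : 0 < lam) {h : MFam n M}
    (hh : ∀ e ∈ atlas (E n) M, ∀ y ∈ e.target, h e y = ((2 * lam : ℝ) : ℂ) • lev (φ e) y) :
    ∃ Ψ : Diffeomorph 𝓘(ℂ, E n) 𝓘(ℂ, E n) M (CP n) ω,
      IsoUpTo (1 / (2 * lam * (n + 1))) h (hFS n) Ψ := by
  set ψ : Fam n (CP n) ℝ := pull Φ.symm φ with hψd
  have hψ : IsPos 1 ψ := pull_isPos Φ.symm hφ
  have hψd' : ∀ x, dl ψ x = c0 := fun x => by rw [hψd, pull_dl Φ.symm hφ, hdl]
  have hψμ := pull_dens Φ.symm hφ.toIsWeight hμ
  obtain ⟨A, κ, hA, hAψ⟩ := ke_FS hn hψ hψμ hψd'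
  obtain ⟨T, hT⟩ := exists_auto hA
  refine ⟨Φ.trans T, ?_⟩
  intro e he e' he' x hx hx' v w
  obtain ⟨i', rfl⟩ := he'
  -- a chart at `Φ x`
  obtain ⟨i, hi⟩ := CP.exists_rep_ne (Φ x)
  have hiS : Φ x ∈ (CP.chart i).source := hi
  have hci : CP.chart i ∈ atlas (E n) (CP n) := ⟨i, rfl⟩
  set y := CP.chart i (Φ x) with hy
  have hyx : (CP.chart i).symm y = Φ x := (CP.chart i).left_inv hiS
  have hTx : (Φ.trans T) x = T ((CP.chart i).symm y) := by rw [hyx]; rfl
  rw [hTx] at hx'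
  have hAy : (A.mulVec (ins i y)) i' ≠ 0 := ((hT i i' y).1).1 hx'
  have hTy : CP.chart i' (T ((CP.chart i).symm y)) = pmap A i i' y := (hT i i' y).2 hAy
  -- derivatives
  set g : E n → E n := fun z => CP.chart i (Φ (e.symm z)) with hg
  set g' : E n → E n := fun z => e (Φ.symm ((CP.chart i).symm z)) with hg'
  have hgy : g (e x) = y := by simp only [hg, e.left_inv hx, ← hy]
  have hΦx : Φ.symm (Φ x) = x := Φ.symm_apply_apply x
  have hgd : DifferentiableAt ℂ g (e x) :=
    M3c.differentiableAt_charts Φ.contMDiff hci he hx hiS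
  have hgd' : DifferentiableAt ℂ g' y := by
    refine M3c.differentiableAt_charts (Φ := Φ.symm) Φ.symm.contMDiff he hci hiS ?_
    rw [hΦx]; exact hx
  have hcont : ContinuousAt (fun z => Φ (e.symm z)) (e x) := by
    have h1 : ContinuousAt e.symm (e x) :=
      e.continuousOn_symm.continuousAt (e.open_target.mem_nhds (e.map_source hx))
    exact (Φ.contMDiff.continuous.continuousAt).comp h1
  have hev1 : ∀ᶠ z in 𝓝 (e x), Φ (e.symm z) ∈ (CP.chart i).source := by
    refine hcont.eventually ((CP.chart i).open_source.mem_nhds ?_)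
    show Φ (e.symm (e x)) ∈ _
    rw [e.left_inv hx]; exact hiS
  have hev2 : ∀ᶠ z in 𝓝 (e x), z ∈ e.target := e.open_target.mem_nhds (e.map_source hx)
  have hcomp : g' ∘ g =ᶠ[𝓝 (e x)] id := by
    filter_upwards [hev1, hev2] with z hz1 hz2
    simp only [Function.comp_apply, hg, hg', id]
    rw [(CP.chart i).left_inv hz1]
    have : Φ.symm (Φ (e.symm z)) = e.symm z := Φ.symm_apply_apply _
    rw [this, e.right_inv hz2]
  have hD : (fderiv ℂ g' y).comp (fderiv ℂ g (e x)) = ContinuousLinearMap.id ℂ (E n) := by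
    have h1 : HasFDerivAt (g' ∘ g) ((fderiv ℂ g' y).comp (fderiv ℂ g (e x))) (e x) := by
      refine HasFDerivAt.comp (e x) ?_ hgd.hasFDerivAt
      rw [hgy]; exact hgd'.hasFDerivAt
    have h2 : HasFDerivAt (g' ∘ g) (ContinuousLinearMap.id ℂ (E n)) (e x) :=
      (hasFDerivAt_id (e x)).congr_of_eventuallyEq hcomp
    exact h1.unique h2
  have hDv : ∀ v : E n, fderiv ℂ g' y (fderiv ℂ g (e x) v) = v := fun v => by
    have := congrArg (fun L => L v) hD
    simpa using this
  -- the composite map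
  have hpd : DifferentiableAt ℂ (pmap A i i') y := by
    unfold pmap
    rw [differentiableAt_pi]
    intro j
    have hins : Differentiable ℂ (fun z : E n => ins i z) :=
      (CP.contDiff_ins (𝕜 := ℂ) (m := 1) i).differentiable (by simp)
    have hc : ∀ a : Fin (n + 1), Differentiable ℂ (fun z : E n => A.mulVec (ins i z) a) := by
      intro a
      have : (fun z : E n => A.mulVec (ins i z) a) = fun z => ∑ b, A a b * ins i z b := by
        funext z; rfl
      rw [this]
      refine Differentiable.fun_sum fun b _ => ?_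
      exact (differentiable_pi.1 hins b).const_mul _
    have h1 := hc (i'.succAbove j) y
    have h2 := hc i' y
    simp only [div_eq_mul_inv]
    exact h1.fun_mul (h2.fun_inv hAy)
  have hev3 : ∀ᶠ z in 𝓝 (e x), (A.mulVec (ins i (g z))) i' ≠ 0 := by
    have hc : ContinuousAt (fun z => (A.mulVec (ins i (g z))) i') (e x) := by
      have hins : Continuous (fun z : E n => ins i z) :=
        (CP.contDiff_ins (𝕜 := ℂ) (m := 1) i).continuous
      have hc : Continuous (fun z : E n => A.mulVec (ins i z) i') := by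
        have : (fun z : E n => A.mulVec (ins i z) i') = fun z => ∑ b, A i' b * ins i z b := by
          funext z; rfl
        rw [this]
        exact continuous_finsetSum _ fun b _ => ((continuous_pi_iff.1 hins) b).const_mul _ 
      exact hc.continuousAt.comp hgd.continuousAt
    refine hc.eventually_ne ?_
    rw [hgy]; exact hAy
  have hcomp2 : (fun z => CP.chart i' ((Φ.trans T) (e.symm z))) =ᶠ[𝓝 (e x)] pmap A i i' ∘ g := by
    filter_upwards [hev1, hev3] with z hz1 hz3
    have h1 : (Φ.trans T) (e.symm z) = T ((CP.chart i).symm (g z)) := by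
      show T (Φ (e.symm z)) = _
      rw [hg]
      simp only
      rw [(CP.chart i).left_inv hz1]
    simp only [Function.comp_apply]
    rw [h1, (hT i i' (g z)).2 hz3]
  have hD2 : fderiv ℂ (fun z => CP.chart i' ((Φ.trans T) (e.symm z))) (e x)
      = (fderiv ℂ (pmap A i i') y).comp (fderiv ℂ g (e x)) := by
    rw [hcomp2.fderiv_eq]
    have : HasFDerivAt (pmap A i i' ∘ g)
        ((fderiv ℂ (pmap A i i') y).comp (fderiv ℂ g (e x))) (e x) := by
      refine HasFDerivAt.comp (e x) ?_ hgd.hasFDerivAt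
      rw [hgy]; exact hpd.hasFDerivAt
    exact this.fderiv
  -- the pull back formula
  have key := pull_lev Φ.symm hφ.toIsWeight he hci (x := Φ x) hiS (by rw [hΦx]; exact hx)
    (fderiv ℂ g (e x) v) (fderiv ℂ g (e x) w)
  rw [hΦx] at key
  rw [show (fun z => e (Φ.symm ((CP.chart i).symm z))) = g' from rfl, ← hy] at key
  rw [hDv, hDv] at key
  have hψi : ψ (CP.chart i) = fun z =>
      ((n + 1 : ℝ)) * Real.log (∑ a, ‖(A.mulVec (ins i z)) a‖ ^ 2) + κ := by
    funext z
    exact hAψ i z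
  have key2 := lev_pmap hA hAy (fderiv ℂ g (e x) v) (fderiv ℂ g (e x) w)
  rw [← hψd, hψi] at key
  simp only [M3c.lev_smul_add] at key
  rw [hTx, hTy, hD2]
  simp only [ContinuousLinearMap.comp_apply]
  rw [← key2]
  have hne : ((n : ℂ) + 1) ≠ 0 := by exact_mod_cast Nat.succ_ne_zero n
  have hlam' : (lam : ℂ) ≠ 0 := by exact_mod_cast hlam.ne'
  have h3 : ∀ j k, h e (e x) j k = (2 * lam : ℂ) * lev (φ e) (e x) j k := by
    intro j k
    rw [hh e he _ (e.map_source hx)]
    simp [Matrix.smul_apply]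
  have h4 : ∑ j, ∑ k, h e (e x) j k * v j * (starRingEnd ℂ) (w k)
      = (2 * lam : ℂ) * ∑ j, ∑ k, lev (φ e) (e x) j k * v j * (starRingEnd ℂ) (w k) := by
    rw [Finset.mul_sum]
    refine Finset.sum_congr rfl fun j _ => ?_
    rw [Finset.mul_sum]
    refine Finset.sum_congr rfl fun k _ => ?_
    rw [h3]; ring
  have h5 : ∑ j, ∑ k, (((n : ℝ) + 1 : ℝ) : ℂ) * lev (fun z => Real.log (∑ a, ‖(A.mulVec (ins i z)) a‖ ^ 2)) y j k
      * (fderiv ℂ g (e x) v) j * (starRingEnd ℂ) ((fderiv ℂ g (e x) w) k)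
      = (((n : ℝ) + 1 : ℝ) : ℂ) * ∑ j, ∑ k, lev (fun z => Real.log (∑ a, ‖(A.mulVec (ins i z)) a‖ ^ 2)) y j k
      * (fderiv ℂ g (e x) v) j * (starRingEnd ℂ) ((fderiv ℂ g (e x) w) k) := by
    rw [Finset.mul_sum]
    refine Finset.sum_congr rfl fun j _ => ?_
    rw [Finset.mul_sum]
    refine Finset.sum_congr rfl fun k _ => ?_
    ring
  rw [h4, ← key, h5]
  push_cast
  field_simp

end Pool.Agent.helper63.NU
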