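import Pool.Agent.helper39.NU.Q8b1

set_option autoImplicit false
set_option linter.all false

/-! Module Q8b: `L²` conditions at a point (`l2_vanish` is in `Q8b1`), `l2_div`. -/

open MeasureTheory Filter Topology Set
open scoped ContDiff Manifold Matrix ENNReal ComplexOrder

noncomputable section

namespace Pool.Agent.helper63.NU

variable {n : ℕ}

namespace Q8b

theorem diff_update (i : Fin n) (ζ : ℂ) :
    Differentiable ℂ (fun w : E n => Function.update w i ζ) := by
  rw [differentiable_pi]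
  intro j
  by_cases hj : j = i
  · subst hj
    simp only [Function.update_self]
    exact differentiable_const _
  · simp only [Function.update_of_ne hj]
    fun_prop

theorem diff_update' (i : Fin n) (w : E n) :
    Differentiable ℂ (fun ζ : ℂ => Function.update w i ζ) := by
  rw [differentiable_pi]
  intro j
  by_cases hj : j = i
  · subst hj
    simp only [Function.update_self]
    exact differentiable_id
  · simp only [Function.update_of_ne hj]
    exact differentiable_const _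

/-- division by a coordinate -/
theorem coord_div {F : E n → ℂ} {R ρ : ℝ} (hρ : 0 < ρ) (hρR : ρ < R) (i : Fin n)
    (hF : DifferentiableOn ℂ F (Metric.ball 0 R))
    (h0 : ∀ w ∈ Metric.ball (0 : E n) R, w i = 0 → F w = 0) :
    ∃ G : E n → ℂ, DifferentiableOn ℂ G (Metric.ball 0 ρ) ∧
      ∀ w ∈ Metric.ball (0 : E n) ρ, F w = w i * G w := by
  classical
  have hup : ∀ w ∈ Metric.ball (0 : E n) ρ, ∀ ζ ∈ Metric.ball (0 : ℂ) R,
      Function.update w i ζ ∈ Metric.ball (0 : E n) R := by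
    intro w hw ζ hζ
    rw [mem_ball_zero_iff] at hw hζ ⊢
    rw [pi_norm_lt_iff (by linarith)]
    intro j
    by_cases hj : j = i
    · subst hj; rw [Function.update_self]; linarith
    · rw [Function.update_of_ne hj]
      exact lt_trans (lt_of_le_of_lt (norm_le_pi_norm w j) hw) hρR
  have hsph : ∀ ζ ∈ Metric.sphere (0 : ℂ) ρ, ζ ∈ Metric.ball (0 : ℂ) R ∧ ζ ≠ 0 := by
    intro ζ hζ
    rw [mem_sphere_zero_iff_norm] at hζ
    refine ⟨by rw [mem_ball_zero_iff]; linarith, ?_⟩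
    rintro rfl
    simp at hζ
    linarith
  have hne : ∀ ζ ∈ Metric.sphere (0 : ℂ) ρ, ∀ w ∈ Metric.ball (0 : E n) ρ, ζ - w i ≠ 0 := by
    intro ζ hζ w hw h
    rw [mem_sphere_zero_iff_norm] at hζ
    rw [mem_ball_zero_iff] at hw
    have h1 := norm_le_pi_norm w i
    rw [← sub_eq_zero.1 h] at h1
    linarith
  refine ⟨fun w => (2 * Real.pi * Complex.I)⁻¹ *
    ∮ ζ in C(0, ρ), (ζ - w i)⁻¹ * (ζ⁻¹ * F (Function.update w i ζ)), ?_, ?_⟩
  · refine DifferentiableOn.const_mul ?_ _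
    refine Pool.Agent.helper96.Zd.differentiableOn_circleIntegral
      (H := fun ζ (w : E n) => (ζ - w i)⁻¹ * (ζ⁻¹ * F (Function.update w i ζ)))
      Metric.isOpen_ball hρ.le ?_ ?_
    · have h1 : ContinuousOn (fun q : ℂ × E n => F (Function.update q.2 i q.1))
          (Metric.sphere 0 ρ ×ˢ Metric.ball 0 ρ) := by
        refine hF.continuousOn.comp (f := fun q : ℂ × E n => Function.update q.2 i q.1) ?_ ?_
        · have hcu : Continuous (fun q : ℂ × E n => Function.update q.2 i q.1) :=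
            Continuous.update (f := fun q : ℂ × E n => q.2) continuous_snd i continuous_fst
          exact hcu.continuousOn
        · intro q hq
          exact hup q.2 hq.2 q.1 (hsph q.1 hq.1).1
      have h2 : ContinuousOn (fun q : ℂ × E n => (q.1 - q.2 i)⁻¹)
          (Metric.sphere 0 ρ ×ˢ Metric.ball 0 ρ) := by
        refine ContinuousOn.inv₀ (by fun_prop) ?_
        intro q hq
        exact hne q.1 hq.1 q.2 hq.2
      have h3 : ContinuousOn (fun q : ℂ × E n => (q.1)⁻¹)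
          (Metric.sphere 0 ρ ×ˢ Metric.ball 0 ρ) := by
        refine ContinuousOn.inv₀ (by fun_prop) ?_
        intro q hq
        exact (hsph q.1 hq.1).2
      exact h2.mul (h3.mul h1)
    · intro ζ hζ
      have h1 : DifferentiableOn ℂ (fun w : E n => F (Function.update w i ζ))
          (Metric.ball 0 ρ) := by
        refine hF.comp (f := fun w : E n => Function.update w i ζ)
          (diff_update i ζ).differentiableOn ?_
        intro w hw
        exact hup w hw ζ (hsph ζ hζ).1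
      have h2 : DifferentiableOn ℂ (fun w : E n => (ζ - w i)⁻¹) (Metric.ball 0 ρ) := by
        refine DifferentiableOn.inv (by fun_prop) ?_
        intro w hw
        exact hne ζ hζ w hw
      exact h2.mul (h1.const_mul _)
  · intro w hw
    set f₁ : ℂ → ℂ := fun z => F (Function.update w i z) with hf₁
    have hf₁d : DifferentiableOn ℂ f₁ (Metric.ball 0 R) := by
      refine hF.comp (f := fun z : ℂ => Function.update w i z)
        (diff_update' i w).differentiableOn ?_
      intro z hz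
      exact hup w hw z hz
    have hR : 0 < R := by linarith
    have hf₁0 : f₁ 0 = 0 := by
      refine h0 _ (hup w hw 0 (Metric.mem_ball_self hR)) ?_
      rw [Function.update_self]
    have hH : DifferentiableOn ℂ (dslope f₁ 0) (Metric.ball 0 R) :=
      (Complex.differentiableOn_dslope (Metric.ball_mem_nhds _ hR)).2 hf₁d
    have hwi : w i ∈ Metric.ball (0 : ℂ) ρ := by
      rw [mem_ball_zero_iff] at hw ⊢
      exact lt_of_le_of_lt (norm_le_pi_norm w i) hw
    have hC := (hH.mono (Metric.closedBall_subset_ball hρR)).circleIntegral_sub_inv_smul hwi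
    have hcongr : (∮ ζ in C(0, ρ), (ζ - w i)⁻¹ * (ζ⁻¹ * F (Function.update w i ζ))) =
        ∮ ζ in C(0, ρ), (ζ - w i)⁻¹ • dslope f₁ 0 ζ := by
      refine circleIntegral.integral_congr hρ.le ?_
      intro ζ hζ
      have h1 := (hsph ζ hζ).2
      simp only [smul_eq_mul]
      rw [dslope_of_ne _ h1, slope_def_field, hf₁0, sub_zero, sub_zero, div_eq_inv_mul]
    have h2 : (w i - 0) • dslope f₁ 0 (w i) = f₁ (w i) - f₁ 0 := sub_smul_dslope f₁ 0 (w i)
    rw [hf₁0, sub_zero, sub_zero, smul_eq_mul] at h2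
    have h3 : f₁ (w i) = F w := by
      simp only [hf₁, Function.update_eq_self]
    show F w = w i * ((2 * Real.pi * Complex.I)⁻¹ *
      ∮ ζ in C(0, ρ), (ζ - w i)⁻¹ * (ζ⁻¹ * F (Function.update w i ζ)))
    rw [hcongr, hC, ← h3, ← h2, smul_eq_mul, inv_mul_cancel_left₀ Complex.two_pi_I_ne_zero]

/-- the hyperplane is a null set -/
theorem hyper_null (i : Fin n) : ∀ᵐ w : E n, w i ≠ 0 := by
  have h1 : volume {w : E n | w i = 0} = 0 := Measure.pi_hyperplane (fun _ => volume) i 0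
  rw [ae_iff]
  simpa using h1

/-- an `L²` condition forces vanishing on the hyperplane -/
theorem vanish_hyper (i : Fin n) {G : E n → ℂ} {r : ℝ}
    (hG : ContinuousOn G (Metric.ball 0 r))
    (hint : ∫⁻ w in Metric.ball (0 : E n) r, ENNReal.ofReal (‖G w‖ ^ 2) *
      (ENNReal.ofReal ‖w i‖) ^ (-2 * (1 : ℝ)) ≠ ⊤) :
    ∀ w ∈ Metric.ball (0 : E n) r, w i = 0 → G w = 0 := by
  classical
  intro q hq hqi
  by_contra hne
  have hr : 0 < r := by
    rw [mem_ball_zero_iff] at hq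
    exact lt_of_le_of_lt (norm_nonneg _) hq
  set c : ℝ := ‖G q‖ with hc
  have hc0 : 0 < c := norm_pos_iff.2 hne
  obtain ⟨s, hs0, hs⟩ : ∃ s > 0, ∀ w ∈ Metric.ball q s, w ∈ Metric.ball (0 : E n) r ∧
      c / 2 ≤ ‖G w‖ := by
    have h1 : ∀ᶠ w in 𝓝 q, c / 2 < ‖G w‖ := by
      have : Tendsto (fun w => ‖G w‖) (𝓝 q) (𝓝 c) :=
        (hG.continuousAt (Metric.isOpen_ball.mem_nhds hq)).norm
      exact this.eventually_const_lt (by linarith)
    have h2 := (Metric.isOpen_ball.mem_nhds hq : Metric.ball (0 : E n) r ∈ 𝓝 q)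
    obtain ⟨s, hs0, hs⟩ := Metric.eventually_nhds_iff_ball.1 ((eventually_mem_set.2 h2).and h1)
    exact ⟨s, hs0, fun w hw => ⟨(hs w hw).1, (hs w hw).2.le⟩⟩
  set V : ℝ≥0∞ := ∏ j ∈ Finset.univ.erase i, volume (Metric.ball (q j) s) with hV
  have hV0 : V ≠ 0 := by
    rw [hV, Finset.prod_ne_zero_iff]
    intro j _
    exact (Metric.measure_ball_pos volume _ hs0).ne'
  have hVt : V ≠ ⊤ := by
    rw [hV]
    exact ENNReal.prod_ne_top fun j _ => measure_ball_lt_top.ne
  set S : ℝ → Set (E n) := fun t => Set.pi univ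
    (Function.update (fun j => Metric.ball (q j) s) i (Metric.closedBall (0 : ℂ) t)) with hS
  have hSv : ∀ t, volume (S t) = ENNReal.ofReal t ^ 2 * (NNReal.pi * V) := by
    intro t
    rw [hS]
    simp only
    rw [volume_pi_pi, ← Finset.mul_prod_erase Finset.univ _ (Finset.mem_univ i),
      Function.update_self, Complex.volume_closedBall, mul_assoc, hV]
    congr 2
    refine Finset.prod_congr rfl fun j hj => ?_
    rw [Function.update_of_ne (Finset.ne_of_mem_erase hj)]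
  have hSub : ∀ t, 0 < t → t < s → ∀ w ∈ S t, w ∈ Metric.ball q s ∧ ‖w i‖ ≤ t := by
    intro t ht hts w hw
    have hwi : ‖w i‖ ≤ t := by
      have := hw i (mem_univ i)
      rw [Function.update_self, mem_closedBall_zero_iff] at this
      exact this
    refine ⟨?_, hwi⟩
    rw [mem_ball_iff_norm, pi_norm_lt_iff hs0]
    intro j
    by_cases hj : j = i
    · subst hj
      rw [Pi.sub_apply, hqi, sub_zero]
      linarith
    · have := hw j (mem_univ j)
      rw [Function.update_of_ne hj, mem_ball_iff_norm] at this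
      exact this
  refine no_lower_bound (p := 0) (G := fun w => ENNReal.ofReal (‖G w‖ ^ 2) *
    (ENNReal.ofReal ‖w i‖) ^ (-2 * (1 : ℝ))) hr hint (S := S)
    (K := ENNReal.ofReal ((c / 2) ^ 2) * (NNReal.pi * V)) ?_ hs0 ?_ ?_
  · have h1 : ENNReal.ofReal ((c / 2) ^ 2) ≠ 0 := by
      rw [ENNReal.ofReal_ne_zero_iff]; positivity
    have h2 : (NNReal.pi : ℝ≥0∞) ≠ 0 := by
      rw [ENNReal.coe_ne_zero]; exact NNReal.pi_ne_zero
    exact mul_ne_zero h1 (mul_ne_zero h2 hV0)
  · intro t ht hts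
    have hmeas : MeasurableSet (S t) := by
      rw [hS]
      refine MeasurableSet.univ_pi fun j => ?_
      by_cases hj : j = i
      · subst hj; rw [Function.update_self]; exact measurableSet_closedBall
      · rw [Function.update_of_ne hj]; exact measurableSet_ball
    refine ⟨hmeas, fun w hw => (hs w (hSub t ht hts w hw).1).1, ?_⟩
    have ht' : ENNReal.ofReal t ≠ 0 := by rw [ENNReal.ofReal_ne_zero_iff]; exact ht
    calc ENNReal.ofReal ((c / 2) ^ 2) * (NNReal.pi * V)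
        = (ENNReal.ofReal ((c / 2) ^ 2) * (ENNReal.ofReal t) ^ (-2 * (1 : ℝ))) *
            volume (S t) := by
          rw [hSv]
          have h1 : (ENNReal.ofReal t) ^ (-2 * (1 : ℝ)) * ENNReal.ofReal t ^ 2 = 1 := by
            rw [mul_one, ← ENNReal.rpow_natCast, ← ENNReal.rpow_add _ _ ht' ENNReal.ofReal_ne_top]
            norm_num
          rw [mul_assoc, ← mul_assoc (ENNReal.ofReal t ^ (-2 * (1 : ℝ))), h1, one_mul]
      _ = ∫⁻ w in S t, ENNReal.ofReal ((c / 2) ^ 2) * (ENNReal.ofReal t) ^ (-2 * (1 : ℝ)) := by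
          rw [setLIntegral_const]
      _ ≤ _ := by
          refine setLIntegral_mono' hmeas fun w hw => ?_
          obtain ⟨h1, h2⟩ := hSub t ht hts w hw
          refine mul_le_mul' ?_ ?_
          · refine ENNReal.ofReal_le_ofReal ?_
            exact pow_le_pow_left₀ (by positivity) (hs w h1).2 2
          · exact rpow_anti zero_le_one (ENNReal.ofReal_le_ofReal h2)
  · have h1 : Tendsto (fun t : ℝ => ENNReal.ofReal t ^ 2 * (NNReal.pi * V)) (𝓝[>] 0) (𝓝 0) := by
      have h2 : Tendsto (fun t : ℝ => ENNReal.ofReal t ^ 2) (𝓝[>] 0) (𝓝 0) := by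
        have h3 : Tendsto (fun t : ℝ => ENNReal.ofReal t) (𝓝[>] 0) (𝓝 (ENNReal.ofReal 0)) :=
          ENNReal.tendsto_ofReal (tendsto_id.mono_left nhdsWithin_le_nhds)
        have h4 := ENNReal.Tendsto.pow (n := 2) h3
        simpa using h4
      have h6 := ENNReal.Tendsto.mul_const h2
        (Or.inr (ENNReal.mul_ne_top ENNReal.coe_ne_top hVt : (NNReal.pi : ℝ≥0∞) * V ≠ ⊤))
      simpa using h6
    refine h1.congr fun t => (hSv t).symm

/-- the integrand in coordinates -/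
theorem integrand_le {x N g γ : ℝ} (hx : 0 < x) (hx1 : x ≤ 1) (hN : 0 < N) (hN1 : N ≤ 1)
    (hg : 0 ≤ g) (hγ : 0 ≤ γ) {j c : ℕ} {a : ℝ} (ha : (a : ℝ) + j ≤ c) :
    ENNReal.ofReal (g ^ 2) * (ENNReal.ofReal x) ^ (-2 * a) ≤
    ENNReal.ofReal ((x ^ j * g) ^ 2) * (ENNReal.ofReal x) ^ (-2 * (c : ℝ)) *
      (ENNReal.ofReal N) ^ (-2 * γ) := by
  rw [ENNReal.ofReal_rpow_of_pos hx, ENNReal.ofReal_rpow_of_pos hx, ENNReal.ofReal_rpow_of_pos hN,
    ← ENNReal.ofReal_mul (by positivity), ← ENNReal.ofReal_mul (by positivity),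
    ← ENNReal.ofReal_mul (by positivity)]
  refine ENNReal.ofReal_le_ofReal ?_
  have h1 : (1 : ℝ) ≤ N ^ (-2 * γ) :=
    Real.one_le_rpow_of_pos_of_le_one_of_nonpos hN hN1 (by linarith)
  have h2 : x ^ (-2 * a) ≤ (x ^ j) ^ 2 * x ^ (-2 * (c : ℝ)) := by
    have h3 : (x ^ j) ^ 2 * x ^ (-2 * (c : ℝ)) = x ^ ((2 * j : ℝ) + (-2 * (c : ℝ))) := by
      rw [Real.rpow_add hx]
      congr 1
      rw [← pow_mul, ← Real.rpow_natCast]
      push_cast
      ring_nf
    rw [h3]
    exact Real.rpow_le_rpow_of_exponent_ge hx hx1 (by linarith)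
  have h4 : 0 ≤ (x ^ j) ^ 2 * x ^ (-2 * (c : ℝ)) := by positivity
  calc g ^ 2 * x ^ (-2 * a) ≤ g ^ 2 * ((x ^ j) ^ 2 * x ^ (-2 * (c : ℝ))) :=
        mul_le_mul_of_nonneg_left h2 (by positivity)
    _ = g ^ 2 * ((x ^ j) ^ 2 * x ^ (-2 * (c : ℝ))) * 1 := by ring
    _ ≤ g ^ 2 * ((x ^ j) ^ 2 * x ^ (-2 * (c : ℝ))) * N ^ (-2 * γ) :=
        mul_le_mul_of_nonneg_left h1 (by positivity)
    _ = _ := by ring

theorem coord_l2 (hn : 0 < n) (i : Fin n) {F : E n → ℂ} (hF : HolAt F 0) {c : ℕ} {r γ : ℝ}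
    (hr : 0 < r) (hγ : 0 ≤ γ)
    (hint : ∫⁻ w in Metric.ball (0 : E n) r, ENNReal.ofReal (‖F w‖ ^ 2) *
      (ENNReal.ofReal ‖w i‖) ^ (-2 * (c : ℝ)) * (ENNReal.ofReal ‖w‖) ^ (-2 * γ) ≠ ⊤)
    {m : ℕ} (hm : (m : ℝ) ≤ γ - n + 1) :
    ∃ G : E n → ℂ, HolAt G 0 ∧ (∀ᶠ w in 𝓝 0, F w = w i ^ c * G w) ∧ VanO G 0 m := by
  have key : ∀ j : ℕ, j ≤ c → ∃ (G : E n → ℂ) (ρ : ℝ), 0 < ρ ∧ ρ ≤ r ∧ ρ ≤ 1 ∧
      DifferentiableOn ℂ G (Metric.ball 0 ρ) ∧ ∀ w ∈ Metric.ball (0 : E n) ρ,
        F w = w i ^ j * G w := by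
    intro j
    induction j with
    | zero =>
      intro _
      obtain ⟨δ, hδ, hd⟩ := HolAt.exists_ball hF
      refine ⟨F, min δ (min r 1), by positivity, (min_le_right _ _).trans (min_le_left _ _),
        (min_le_right _ _).trans (min_le_right _ _), hd.mono (Metric.ball_subset_ball
        (min_le_left _ _)), fun w _ => by simp⟩
    | succ j ih =>
      intro hj
      obtain ⟨G, ρ, hρ, hρr, hρ1, hG, hFG⟩ := ih (by omega)
      have hlt : ∫⁻ w in Metric.ball (0 : E n) ρ, ENNReal.ofReal (‖G w‖ ^ 2) *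
          (ENNReal.ofReal ‖w i‖) ^ (-2 * (1 : ℝ)) ≠ ⊤ := by
        refine ne_top_of_le_ne_top hint ?_
        refine le_trans ?_ (lintegral_mono_set (Metric.ball_subset_ball hρr))
        refine lintegral_mono_ae ?_
        filter_upwards [ae_restrict_of_ae (hyper_null i),
          ae_restrict_mem Metric.isOpen_ball.measurableSet] with w hw hwb
        rw [mem_ball_zero_iff] at hwb
        have h1 := norm_le_pi_norm w i
        have h2 : 0 < ‖w i‖ := norm_pos_iff.2 hw
        rw [hFG w (by rw [mem_ball_zero_iff]; exact hwb), norm_mul, norm_pow]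
        refine integrand_le h2 (by linarith) (by linarith) (by linarith) (norm_nonneg _) hγ ?_
        have : ((j + 1 : ℕ) : ℝ) ≤ c := by exact_mod_cast hj
        push_cast at this
        linarith
      have hvan := vanish_hyper i hG.continuousOn hlt
      obtain ⟨G', hG', hGG'⟩ := coord_div (ρ := ρ / 2) (by linarith) (by linarith) i hG hvan
      refine ⟨G', ρ / 2, by linarith, by linarith, by linarith, hG', fun w hw => ?_⟩
      rw [hFG w (Metric.ball_subset_ball (by linarith) hw), hGG' w hw, pow_succ]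
      ring
  obtain ⟨G, ρ, hρ, hρr, hρ1, hG, hFG⟩ := key c le_rfl
  have hGh : HolAt G 0 := by
    filter_upwards [Metric.ball_mem_nhds (0 : E n) hρ] with w hw
    exact hG.differentiableAt (Metric.isOpen_ball.mem_nhds hw)
  refine ⟨G, hGh, ?_, ?_⟩
  · filter_upwards [Metric.ball_mem_nhds (0 : E n) hρ] with w hw using hFG w hw
  · refine l2_vanish hn hGh (r := ρ) (γ := γ) hρ ?_ hm
    refine ne_top_of_le_ne_top hint ?_
    refine le_trans ?_ (lintegral_mono_set (Metric.ball_subset_ball hρr))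
    refine lintegral_mono_ae ?_
    filter_upwards [ae_restrict_of_ae (hyper_null i),
      ae_restrict_mem Metric.isOpen_ball.measurableSet] with w hw hwb
    have h2 : 0 < ‖w i‖ := norm_pos_iff.2 hw
    rw [sub_zero]
    refine mul_le_mul' ?_ le_rfl
    rw [hFG w hwb, norm_mul, norm_pow, ENNReal.ofReal_rpow_of_pos h2,
      ← ENNReal.ofReal_mul (by positivity)]
    refine ENNReal.ofReal_le_ofReal (le_of_eq ?_)
    have h3 : (‖w i‖ ^ c) ^ 2 * ‖w i‖ ^ (-2 * (c : ℝ)) = 1 := by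
      rw [← pow_mul, ← Real.rpow_natCast, ← Real.rpow_add h2]
      push_cast
      ring_nf
      simp
    rw [mul_pow]
    linear_combination (-‖G w‖ ^ 2) * h3

end Q8b

open Q8b

/-- integrability against `|X|^{-2c} |y-p|^{-2γ}` forces divisibility by `X^c` and vanishing of the
quotient; `X` is a coordinate function -/
theorem l2_div (hn : 0 < n) {f X : E n → ℂ} {p : E n} (hf : HolAt f p) (hX : HolAt X p)
    {i : Fin n} (hX1 : VanO (fun y => X y - (y i - p i)) p 2) {c : ℕ} {r γ : ℝ} (hr : 0 < r)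
    (hγ : 0 ≤ γ)
    (hint : ∫⁻ y in Metric.ball p r, ENNReal.ofReal (‖f y‖ ^ 2) *
      (ENNReal.ofReal ‖X y‖) ^ (-2 * (c : ℝ)) * (ENNReal.ofReal ‖y - p‖) ^ (-2 * γ) ≠ ⊤)
    {m : ℕ} (hm : (m : ℝ) ≤ γ - n + 1) :
    ∃ g : E n → ℂ, HolAt g p ∧ (∀ᶠ y in 𝓝 p, f y = X y ^ c * g y) ∧ VanO g p m := by
  classical
  obtain ⟨K, hK⟩ := hX1
  have hXp : X p = 0 := by
    have h1 := hK.self_of_nhds
    simpa using h1
  -- the change of coordinates
  set Ψ : E n → E n := fun y => Function.update (y - p) i (X y) with hΨ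
  have hΨp : Ψ p = 0 := by
    simp only [hΨ, sub_self, hXp]
    exact Function.update_eq_self i (0 : E n)
  have hXc : ContDiffAt ℂ 1 X p := by
    obtain ⟨δ, hδ, hd⟩ := HolAt.exists_ball hX
    have h1 := Pool.Agent.helper96.Zd.contDiffOn_of_differentiableOn Metric.isOpen_ball hd
    exact (h1.contDiffAt (Metric.ball_mem_nhds _ hδ)).of_le (by exact_mod_cast le_top)
  have hΨc : ContDiffAt ℂ 1 Ψ p := by
    rw [contDiffAt_pi]
    intro j
    by_cases hj : j = i
    · subst hj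
      simp only [hΨ, Function.update_self]
      exact hXc
    · simp only [hΨ, Function.update_of_ne hj, Pi.sub_apply]
      fun_prop
  have hXd : HasFDerivAt X (ContinuousLinearMap.proj (R := ℂ) (φ := fun _ : Fin n => ℂ) i) p := by
    have h1 : (fun y => X y - (y i - p i)) =O[𝓝 p] fun y => ‖y - p‖ ^ 2 := by
      refine Asymptotics.IsBigO.of_bound K ?_
      filter_upwards [hK] with y hy
      simpa using hy
    have h2 := h1.hasFDerivAt (𝕜 := ℂ) (by norm_num)
    have h3 : HasFDerivAt (fun y : E n => y i - p i)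
        (ContinuousLinearMap.proj (R := ℂ) (φ := fun _ : Fin n => ℂ) i) p :=
      (ContinuousLinearMap.proj (R := ℂ) (φ := fun _ : Fin n => ℂ) i).hasFDerivAt.sub_const _
    have h4 := h2.add h3
    rw [zero_add] at h4
    refine h4.congr_of_eventuallyEq (Eventually.of_forall fun y => ?_)
    simp
  have hΨd : HasFDerivAt Ψ ((ContinuousLinearEquiv.refl ℂ (E n) : E n ≃L[ℂ] E n) :
      E n →L[ℂ] E n) p := by
    rw [hasFDerivAt_pi']
    intro j
    by_cases hj : j = i
    · subst hj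
      simp only [hΨ, Function.update_self]
      exact hXd
    · simp only [hΨ, Function.update_of_ne hj, Pi.sub_apply]
      exact (ContinuousLinearMap.proj (R := ℂ) (φ := fun _ : Fin n => ℂ) j).hasFDerivAt.sub_const _
  have hΨs : HasStrictFDerivAt Ψ ((ContinuousLinearEquiv.refl ℂ (E n) : E n ≃L[ℂ] E n) :
      E n →L[ℂ] E n) p := hΨc.hasStrictFDerivAt' hΨd one_ne_zero
  set Φ : E n → E n := hΨc.localInverse hΨd one_ne_zero with hΦ
  have hΦc : ContDiffAt ℂ 1 Φ 0 := by
    have := hΨc.to_localInverse hΨd one_ne_zero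
    rwa [hΨp] at this
  have hΦs : HasStrictFDerivAt Φ ((ContinuousLinearEquiv.refl ℂ (E n) : E n ≃L[ℂ] E n) :
      E n →L[ℂ] E n) 0 := by
    have := hΨs.to_localInverse
    rw [hΨp] at this
    exact this
  have hleft : ∀ᶠ y in 𝓝 p, Φ (Ψ y) = y := hΨs.eventually_left_inverse
  have hright : ∀ᶠ w in 𝓝 (0 : E n), Ψ (Φ w) = w := by
    have := hΨs.eventually_right_inverse
    rw [hΨp] at this
    exact this
  have hΦ0 : Φ 0 = p := by
    have := hleft.self_of_nhds
    rwa [hΨp] at this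
  have hΦt : Tendsto Φ (𝓝 0) (𝓝 p) := by
    have := hΦc.continuousAt.tendsto
    rwa [hΦ0] at this
  have hΨt : Tendsto Ψ (𝓝 p) (𝓝 0) := by
    have := hΨc.continuousAt.tendsto
    rwa [hΨp] at this
  -- the real determinant
  have hΦR : ContDiffAt ℝ 1 Φ 0 := hΦc.restrict_scalars ℝ
  have hdet : ∀ᶠ w in 𝓝 (0 : E n), 1 / 2 < |(fderiv ℝ Φ w).det| := by
    have h1 : ContinuousAt (fderiv ℝ Φ) 0 :=
      (hΦR.fderiv_right (m := 0) (by norm_num)).continuousAt
    have h2 : ContinuousAt (fun w => |(fderiv ℝ Φ w).det|) 0 :=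
      (ContinuousLinearMap.continuous_det.continuousAt.comp h1).abs
    have h3 : fderiv ℝ Φ 0 = ContinuousLinearMap.id ℝ (E n) := by
      have h4 := hΦs.hasFDerivAt.restrictScalars ℝ
      rw [h4.fderiv]
      ext v
      rfl
    have h5 : Tendsto (fun w => |(fderiv ℝ Φ w).det|) (𝓝 0) (𝓝 1) := by
      have := h2.tendsto
      rw [h3] at this
      simpa [ContinuousLinearMap.det] using this
    exact h5.eventually_const_lt (by norm_num)
  -- comparison of the distances
  have hΦn : ∀ᶠ w in 𝓝 (0 : E n), ‖Φ w - p‖ ≤ 2 * ‖w‖ := by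
    have h1 := (hΦs.hasFDerivAt.isLittleO).bound one_pos
    filter_upwards [h1] with w hw
    rw [hΦ0, sub_zero] at hw
    have h2 : ((ContinuousLinearEquiv.refl ℂ (E n) : E n ≃L[ℂ] E n) : E n →L[ℂ] E n) w = w := rfl
    rw [h2, one_mul] at hw
    calc ‖Φ w - p‖ = ‖(Φ w - p - w) + w‖ := by congr 1; abel
      _ ≤ ‖Φ w - p - w‖ + ‖w‖ := norm_add_le _ _
      _ ≤ _ := by linarith
  have hΨn : ∀ᶠ y in 𝓝 p, ‖Ψ y‖ ≤ 2 * ‖y - p‖ := by
    have h1 := (hΨs.hasFDerivAt.isLittleO).bound one_pos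
    filter_upwards [h1] with y hy
    rw [hΨp, sub_zero] at hy
    have h2 : ((ContinuousLinearEquiv.refl ℂ (E n) : E n ≃L[ℂ] E n) : E n →L[ℂ] E n) (y - p)
        = y - p := rfl
    rw [h2, one_mul] at hy
    calc ‖Ψ y‖ = ‖(Ψ y - (y - p)) + (y - p)‖ := by congr 1; abel
      _ ≤ ‖Ψ y - (y - p)‖ + ‖y - p‖ := norm_add_le _ _
      _ ≤ _ := by linarith
  -- a good ball
  have hall := (hΦt.eventually (Metric.ball_mem_nhds p hr)).and
    (hright.and ((hΦc.eventually (by simp)).and (hdet.and hΦn)))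
  obtain ⟨s, hs0, hs⟩ := Metric.eventually_nhds_iff_ball.1 hall
  have hF : HolAt (fun w => f (Φ w)) 0 := by
    filter_upwards [hΦt.eventually hf, hΦc.eventually (by simp)] with w h1 h2
    exact h1.comp w (h2.differentiableAt one_ne_zero)
  -- the integral in the new coordinates
  have hJ : ∫⁻ w in Metric.ball (0 : E n) s, ENNReal.ofReal (‖f (Φ w)‖ ^ 2) *
      (ENNReal.ofReal ‖w i‖) ^ (-2 * (c : ℝ)) * (ENNReal.ofReal ‖w‖) ^ (-2 * γ) ≠ ⊤ := by
    have hinj : InjOn Φ (Metric.ball 0 s) := by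
      intro w hw w' hw' h
      rw [← (hs w hw).2.1, ← (hs w' hw').2.1, h]
    have hcv := lintegral_image_eq_lintegral_abs_det_fderiv_mul (volume : Measure (E n))
      (Metric.isOpen_ball (x := (0 : E n)) (ε := s)).measurableSet
      (f := Φ) (f' := fderiv ℝ Φ) (fun w hw =>
        (((hs w hw).2.2.1.differentiableAt one_ne_zero).restrictScalars ℝ).hasFDerivAt.hasFDerivWithinAt) hinj
      (fun y => ENNReal.ofReal (‖f y‖ ^ 2) *
        (ENNReal.ofReal ‖X y‖) ^ (-2 * (c : ℝ)) * (ENNReal.ofReal ‖y - p‖) ^ (-2 * γ))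
    have hsub : Φ '' Metric.ball 0 s ⊆ Metric.ball p r := by
      rintro y ⟨w, hw, rfl⟩
      exact (hs w hw).1
    have h1 : ∫⁻ w in Metric.ball (0 : E n) s, ENNReal.ofReal |(fderiv ℝ Φ w).det| *
        (ENNReal.ofReal (‖f (Φ w)‖ ^ 2) * (ENNReal.ofReal ‖X (Φ w)‖) ^ (-2 * (c : ℝ)) *
        (ENNReal.ofReal ‖Φ w - p‖) ^ (-2 * γ)) ≠ ⊤ := by
      rw [← hcv]
      exact ne_top_of_le_ne_top hint (lintegral_mono_set hsub)
    set κ : ℝ≥0∞ := ENNReal.ofReal (1 / 2) * (ENNReal.ofReal 2) ^ (-2 * γ) with hκ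
    have h2ne : (ENNReal.ofReal 2) ^ (-2 * γ) ≠ 0 ∧ (ENNReal.ofReal 2) ^ (-2 * γ) ≠ ⊤ := by
      rw [ENNReal.ofReal_rpow_of_pos (by norm_num)]
      refine ⟨?_, ENNReal.ofReal_ne_top⟩
      rw [ENNReal.ofReal_ne_zero_iff]
      positivity
    have hκ0 : κ ≠ 0 := by
      refine mul_ne_zero ?_ h2ne.1
      rw [ENNReal.ofReal_ne_zero_iff]
      norm_num
    have hκt : κ ≠ ⊤ := ENNReal.mul_ne_top ENNReal.ofReal_ne_top h2ne.2
    have h2 : κ * ∫⁻ w in Metric.ball (0 : E n) s, ENNReal.ofReal (‖f (Φ w)‖ ^ 2) *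
        (ENNReal.ofReal ‖w i‖) ^ (-2 * (c : ℝ)) * (ENNReal.ofReal ‖w‖) ^ (-2 * γ) ≠ ⊤ := by
      rw [← lintegral_const_mul' _ _ hκt]
      refine ne_top_of_le_ne_top h1 ?_
      refine setLIntegral_mono' Metric.isOpen_ball.measurableSet fun w hw => ?_
      obtain ⟨_, hw2, _, hw4, hw5⟩ := hs w hw
      have h3 : X (Φ w) = w i := by
        have := congrFun hw2 i
        simpa only [hΨ, Function.update_self] using this
      rw [h3]
      have h4 : (ENNReal.ofReal 2) ^ (-2 * γ) * (ENNReal.ofReal ‖w‖) ^ (-2 * γ) ≤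
          (ENNReal.ofReal ‖Φ w - p‖) ^ (-2 * γ) := by
        rw [← ENNReal.mul_rpow_of_ne_top ENNReal.ofReal_ne_top ENNReal.ofReal_ne_top,
          ← ENNReal.ofReal_mul (by norm_num)]
        exact rpow_anti hγ (ENNReal.ofReal_le_ofReal hw5)
      have h5 : ENNReal.ofReal (1 / 2) ≤ ENNReal.ofReal |(fderiv ℝ Φ w).det| :=
        ENNReal.ofReal_le_ofReal hw4.le
      calc κ * (ENNReal.ofReal (‖f (Φ w)‖ ^ 2) * (ENNReal.ofReal ‖w i‖) ^ (-2 * (c : ℝ)) *
            (ENNReal.ofReal ‖w‖) ^ (-2 * γ))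
          = ENNReal.ofReal (1 / 2) * (ENNReal.ofReal (‖f (Φ w)‖ ^ 2) *
            (ENNReal.ofReal ‖w i‖) ^ (-2 * (c : ℝ)) *
            ((ENNReal.ofReal 2) ^ (-2 * γ) * (ENNReal.ofReal ‖w‖) ^ (-2 * γ))) := by
            rw [hκ]; ring
        _ ≤ _ := mul_le_mul' h5 (mul_le_mul' le_rfl h4)
    intro htop
    rw [htop, ENNReal.mul_top hκ0] at h2
    exact h2 rfl
  obtain ⟨G, hG, hFG, KG, hKG⟩ := coord_l2 hn i hF hs0 hγ hJ hm
  refine ⟨fun y => G (Ψ y), ?_, ?_, ?_⟩
  · filter_upwards [hΨt.eventually hG, hΨc.eventually (by simp)] with y h1 h2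
    exact h1.comp y (h2.differentiableAt one_ne_zero)
  · filter_upwards [hΨt.eventually hFG, hleft] with y h1 h2
    rw [h2] at h1
    simpa only [hΨ, Function.update_self] using h1
  · refine ⟨|KG| * 2 ^ m, ?_⟩
    filter_upwards [hΨt.eventually hKG, hΨn] with y h1 h2
    rw [sub_zero] at h1
    calc ‖G (Ψ y)‖ ≤ KG * ‖Ψ y‖ ^ m := h1
      _ ≤ |KG| * ‖Ψ y‖ ^ m := mul_le_mul_of_nonneg_right (le_abs_self _) (by positivity)
      _ ≤ |KG| * (2 * ‖y - p‖) ^ m := by
          refine mul_le_mul_of_nonneg_left ?_ (abs_nonneg _)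
          exact pow_le_pow_left₀ (norm_nonneg _) h2 m
      _ = |KG| * 2 ^ m * ‖y - p‖ ^ m := by rw [mul_pow]; ring

end Pool.Agent.helper63.NU
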