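import Pool.Agent.helper63.NU.Defs3
import Pool.Agent.helper69.NU.A9

set_option autoImplicit false
set_option linter.all false

/-! Module Q8b, first part: `l2_vanish`. -/

open MeasureTheory Filter Topology Set
open scoped ContDiff Manifold Matrix ENNReal ComplexOrder

noncomputable section

namespace Pool.Agent.helper63.NU

variable {n : ℕ}

namespace Q8b

theorem finrank_E : Module.finrank ℝ (E n) = 2 * n := by
  rw [Module.finrank_pi_fintype]
  simp [Complex.finrank_real_complex, mul_comm]

theorem HolAt.exists_ball {f : E n → ℂ} {p : E n} (hf : HolAt f p) :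
    ∃ δ > 0, DifferentiableOn ℂ f (Metric.ball p δ) := by
  obtain ⟨δ, hδ, h⟩ := Metric.eventually_nhds_iff_ball.1 hf
  exact ⟨δ, hδ, fun y hy => (h y hy).differentiableWithinAt⟩

theorem rpow_anti {a b : ℝ≥0∞} {γ : ℝ} (hγ : 0 ≤ γ) (h : a ≤ b) :
    b ^ (-2 * γ) ≤ a ^ (-2 * γ) := by
  rw [neg_mul, ENNReal.rpow_neg, ENNReal.rpow_neg]
  exact ENNReal.inv_le_inv.2 (ENNReal.rpow_le_rpow h (by positivity))

/-- the integral over small sets tends to zero -/
theorem no_lower_bound {p : E n} {r : ℝ} (hr : 0 < r) {G : E n → ℝ≥0∞}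
    (hint : ∫⁻ y in Metric.ball p r, G y ≠ ⊤) {S : ℝ → Set (E n)} {K : ℝ≥0∞} (hK : K ≠ 0)
    {t0 : ℝ} (ht0 : 0 < t0)
    (hS : ∀ t, 0 < t → t < t0 → MeasurableSet (S t) ∧ S t ⊆ Metric.ball p r ∧ K ≤ ∫⁻ y in S t, G y)
    (hvol : Tendsto (fun t => volume (S t)) (𝓝[>] 0) (𝓝 0)) : False := by
  have h1 : Tendsto (fun t => ∫⁻ y in S t, G y ∂(volume.restrict (Metric.ball p r)))
      (𝓝[>] (0 : ℝ)) (𝓝 0) := by
    refine tendsto_setLIntegral_zero hint ?_
    refine tendsto_of_tendsto_of_tendsto_of_le_of_le tendsto_const_nhds hvol (fun _ => zero_le)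
      (fun t => ?_)
    exact Measure.restrict_apply_le _ _
  have h2 : ∀ᶠ t in 𝓝[>] (0 : ℝ), K ≤ ∫⁻ y in S t, G y ∂(volume.restrict (Metric.ball p r)) := by
    filter_upwards [Ioo_mem_nhdsGT ht0] with t ht
    obtain ⟨hm, hsub, hle⟩ := hS t ht.1 ht.2
    rw [Measure.restrict_restrict hm, inter_eq_left.2 hsub]
    exact hle
  have h3 := ge_of_tendsto h1 h2
  exact hK (le_antisymm h3 zero_le)

end Q8b

open Q8b

theorem l2_vanish (hn : 0 < n) {f : E n → ℂ} {p : E n} (hf : HolAt f p) {r γ : ℝ} (hr : 0 < r)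
    (hint : ∫⁻ y in Metric.ball p r, ENNReal.ofReal (‖f y‖ ^ 2) *
      (ENNReal.ofReal ‖y - p‖) ^ (-2 * γ) ≠ ⊤) {m : ℕ} (hm : (m : ℝ) ≤ γ - n + 1) :
    VanO f p m := by
  obtain ⟨δ0, hδ0, hfd⟩ := HolAt.exists_ball hf
  obtain ⟨P, hP⟩ := osgood Metric.isOpen_ball hfd p (Metric.mem_ball_self hδ0)
  by_cases h : ∀ k < m, ∀ z : E n, (P k) (fun _ => z) = 0
  · -- all the terms of order `< m` vanish
    have h1 := hP.isBigO_sub_partialSum_pow m
    obtain ⟨K, hK⟩ := h1.bound
    refine ⟨K, ?_⟩
    have h2 : Tendsto (fun y => y - p) (𝓝 p) (𝓝 0) := by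
      have : Tendsto (fun y => y - p) (𝓝 p) (𝓝 (p - p)) :=
        (continuous_id.sub continuous_const).tendsto p
      simpa using this
    filter_upwards [h2.eventually hK] with y hy
    have h3 : P.partialSum m (y - p) = 0 := by
      unfold FormalMultilinearSeries.partialSum
      exact Finset.sum_eq_zero fun l hl => h l (Finset.mem_range.1 hl) _
    rw [h3, sub_zero, add_sub_cancel] at hy
    simpa using hy
  · exfalso
    have hex : ∃ k, ∃ z : E n, (P k) (fun _ => z) ≠ 0 := by
      push Not at h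
      obtain ⟨k, _, z, hz⟩ := h
      exact ⟨k, z, hz⟩
    classical
    set ν := Nat.find hex with hν
    have hνm : ν < m := by
      push Not at h
      obtain ⟨k, hk, z, hz⟩ := h
      exact lt_of_le_of_lt (Nat.find_min' hex ⟨z, hz⟩) hk
    obtain ⟨z0, hz0⟩ := Nat.find_spec hex
    rw [← hν] at hz0
    have hlow : ∀ k < ν, ∀ z : E n, (P k) (fun _ => z) = 0 := by
      intro k hk z
      by_contra hne
      exact Nat.find_min hex hk ⟨z, hne⟩
    set Q : E n → ℂ := fun z => (P ν) (fun _ => z) with hQ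
    have hQc : Continuous Q := (P ν).cont.comp (continuous_pi fun _ => continuous_id)
    have hQs : ∀ (t : ℝ) (z : E n), Q (t • z) = (t : ℂ) ^ ν * Q z := by
      intro t z
      have h1 : (P ν) (fun _ => (t : ℂ) • z) = (∏ _i : Fin ν, (t : ℂ)) • (P ν) (fun _ => z) :=
        (P ν).map_smul_univ (fun _ => (t : ℂ)) (fun _ => z)
      have h2 : (t • z : E n) = (t : ℂ) • z := by
        ext j; simp
      simp only [hQ, h2, h1, Finset.prod_const, Finset.card_univ, Fintype.card_fin, smul_eq_mul]
    set c : ℝ := ‖Q z0‖ with hc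
    have hc0 : 0 < c := norm_pos_iff.2 hz0
    -- a ball where `Q` is bounded below
    obtain ⟨s, hs0, hs⟩ : ∃ s > 0, ∀ z ∈ Metric.closedBall z0 s, c / 2 ≤ ‖Q z‖ := by
      have h1 : ∀ᶠ z in 𝓝 z0, c / 2 < ‖Q z‖ := by
        have : Tendsto (fun z => ‖Q z‖) (𝓝 z0) (𝓝 c) := hQc.norm.tendsto z0
        exact this.eventually_const_lt (by linarith)
      obtain ⟨s, hs0, hs⟩ := Metric.nhds_basis_closedBall.eventually_iff.1 h1
      exact ⟨s, hs0, fun z hz => (hs hz).le⟩
    set R : ℝ := ‖z0‖ + s with hR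
    have hR0 : 0 < R := by positivity
    -- Taylor
    obtain ⟨C, hC⟩ := (hP.isBigO_sub_partialSum_pow (ν + 1)).bound
    obtain ⟨δ, hδ, hCδ⟩ := Metric.eventually_nhds_iff_ball.1 hC
    have hTay : ∀ z : E n, ‖z‖ < δ → ‖f (p + z) - Q z‖ ≤ |C| * ‖z‖ ^ (ν + 1) := by
      intro z hz
      have h1 := hCδ z (by simpa using hz)
      have h2 : P.partialSum (ν + 1) z = Q z := by
        unfold FormalMultilinearSeries.partialSum
        rw [Finset.sum_range_succ, Finset.sum_eq_zero fun l hl => hlow l (Finset.mem_range.1 hl) _,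
          zero_add]
      rw [h2] at h1
      refine h1.trans ?_
      rw [norm_pow, norm_norm]
      exact mul_le_mul_of_nonneg_right (le_abs_self C) (by positivity)
    have hγ : 0 < γ := by
      have h1 : (1 : ℝ) ≤ n := by exact_mod_cast hn
      have h2 : (1 : ℝ) ≤ m := by exact_mod_cast (by omega : 1 ≤ m)
      linarith
    -- the constant
    set v : ℝ≥0∞ := volume (Metric.ball (0 : E n) 1) with hv
    have hv0 : v ≠ 0 := (Metric.measure_ball_pos volume _ one_pos).ne'
    set κ : ℝ := (c / 4) ^ 2 * R ^ (-2 * γ) * s ^ (2 * n) with hκ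
    have hκ0 : 0 < κ := by positivity
    set t0 : ℝ := min 1 (min (δ / R) (min (r / R) (c / (4 * (|C| + 1) * R ^ (ν + 1))))) with ht0
    have ht0' : 0 < t0 := by
      rw [ht0]
      refine lt_min one_pos (lt_min (by positivity) (lt_min (by positivity) (by positivity)))
    refine no_lower_bound (G := fun y => ENNReal.ofReal (‖f y‖ ^ 2) *
      (ENNReal.ofReal ‖y - p‖) ^ (-2 * γ)) hr hint
      (S := fun t => Metric.closedBall (p + t • z0) (t * s)) (K := ENNReal.ofReal κ * v)
      (by simp [hv0, hκ0]) ht0' ?_ ?_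
    · intro t ht htt
      have ht1 : t < 1 := lt_of_lt_of_le htt (min_le_left _ _)
      have ht2 : t < δ / R := lt_of_lt_of_le htt ((min_le_right _ _).trans (min_le_left _ _))
      have ht3 : t < r / R := lt_of_lt_of_le htt
        ((min_le_right _ _).trans ((min_le_right _ _).trans (min_le_left _ _)))
      have ht4 : t < c / (4 * (|C| + 1) * R ^ (ν + 1)) := lt_of_lt_of_le htt
        ((min_le_right _ _).trans ((min_le_right _ _).trans (min_le_right _ _)))
      rw [lt_div_iff₀ hR0] at ht2 ht3
      rw [lt_div_iff₀ (by positivity)] at ht4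
      -- points of the ball
      have hpt : ∀ y ∈ Metric.closedBall (p + t • z0) (t * s), ∃ z ∈ Metric.closedBall z0 s,
          y = p + t • z := by
        intro y hy
        refine ⟨t⁻¹ • (y - p), ?_, ?_⟩
        · rw [mem_closedBall_iff_norm] at hy ⊢
          have h1 : t⁻¹ • (y - p) - z0 = t⁻¹ • (y - (p + t • z0)) := by
            rw [← sub_sub, smul_sub t⁻¹ (y - p), smul_smul, inv_mul_cancel₀ ht.ne', one_smul]
          rw [h1, norm_smul, Real.norm_eq_abs, abs_inv, abs_of_pos ht]
          rw [inv_mul_le_iff₀ ht]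
          exact hy
        · rw [smul_smul, mul_inv_cancel₀ ht.ne', one_smul]; abel
      have hzR : ∀ z ∈ Metric.closedBall z0 s, ‖z‖ ≤ R := by
        intro z hz
        rw [mem_closedBall_iff_norm] at hz
        calc ‖z‖ = ‖z0 + (z - z0)‖ := by congr 1; abel
          _ ≤ ‖z0‖ + ‖z - z0‖ := norm_add_le _ _
          _ ≤ R := by rw [hR]; linarith
      have htz : ∀ z ∈ Metric.closedBall z0 s, ‖t • z‖ ≤ t * R := by
        intro z hz
        rw [norm_smul, Real.norm_eq_abs, abs_of_pos ht]
        exact mul_le_mul_of_nonneg_left (hzR z hz) ht.le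
      refine ⟨measurableSet_closedBall, ?_, ?_⟩
      · intro y hy
        obtain ⟨z, hz, rfl⟩ := hpt y hy
        rw [mem_ball_iff_norm, add_sub_cancel_left]
        exact lt_of_le_of_lt (htz z hz) ht3
      · -- lower bound of the integrand
        have hlb : ∀ y ∈ Metric.closedBall (p + t • z0) (t * s),
            ENNReal.ofReal ((t ^ ν * (c / 4)) ^ 2 * (t * R) ^ (-2 * γ)) ≤
            ENNReal.ofReal (‖f y‖ ^ 2) * (ENNReal.ofReal ‖y - p‖) ^ (-2 * γ) := by
          intro y hy
          obtain ⟨z, hz, rfl⟩ := hpt y hy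
          rw [add_sub_cancel_left, ENNReal.ofReal_mul (by positivity)]
          refine mul_le_mul' ?_ ?_
          · refine ENNReal.ofReal_le_ofReal ?_
            refine pow_le_pow_left₀ (by positivity) ?_ 2
            have h1 := hTay (t • z) (lt_of_le_of_lt (htz z hz) ht2)
            have h2 : |C| * ‖t • z‖ ^ (ν + 1) ≤ t ^ ν * (c / 4) := by
              calc |C| * ‖t • z‖ ^ (ν + 1) ≤ |C| * (t * R) ^ (ν + 1) := by
                    refine mul_le_mul_of_nonneg_left ?_ (abs_nonneg C)
                    exact pow_le_pow_left₀ (norm_nonneg _) (htz z hz) _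
                _ ≤ (|C| + 1) * (t * R) ^ (ν + 1) := by
                    refine mul_le_mul_of_nonneg_right (by linarith) (by positivity)
                _ = t ^ ν * (t * ((|C| + 1) * R ^ (ν + 1))) := by rw [mul_pow, pow_succ t ν]; ring
                _ ≤ t ^ ν * (c / 4) := by
                    refine mul_le_mul_of_nonneg_left ?_ (by positivity)
                    linarith
            have h3 : t ^ ν * (c / 2) ≤ ‖Q (t • z)‖ := by
              rw [hQs, norm_mul, norm_pow, Complex.norm_real, Real.norm_eq_abs, abs_of_pos ht]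
              exact mul_le_mul_of_nonneg_left (hs z hz) (by positivity)
            have h4 : ‖Q (t • z)‖ ≤ ‖f (p + t • z)‖ + ‖f (p + t • z) - Q (t • z)‖ := by
              calc ‖Q (t • z)‖ = ‖f (p + t • z) - (f (p + t • z) - Q (t • z))‖ := by congr 1; ring
                _ ≤ _ := norm_sub_le _ _
            nlinarith [h1, h2, h3, h4]
          · rw [← ENNReal.ofReal_rpow_of_pos (by positivity)]
            exact rpow_anti hγ.le (ENNReal.ofReal_le_ofReal (htz z hz))
        calc ENNReal.ofReal κ * v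
            ≤ ENNReal.ofReal ((t ^ ν * (c / 4)) ^ 2 * (t * R) ^ (-2 * γ)) *
              (ENNReal.ofReal ((t * s) ^ (2 * n)) * v) := by
              rw [← mul_assoc, ← ENNReal.ofReal_mul (by positivity)]
              refine mul_le_mul_left ?_ v
              refine ENNReal.ofReal_le_ofReal ?_
              have h1 : (t ^ ν * (c / 4)) ^ 2 * (t * R) ^ (-2 * γ) * (t * s) ^ (2 * n)
                  = t ^ ((2 * ν : ℝ) + (-2 * γ) + 2 * n) * κ := by
                rw [Real.mul_rpow ht.le hR0.le, Real.rpow_add ht, Real.rpow_add ht, hκ]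
                have e1 : t ^ (2 * ν : ℝ) = t ^ (2 * ν) := by
                  rw [← Real.rpow_natCast]; norm_num
                have e2 : t ^ (2 * n : ℝ) = t ^ (2 * n) := by
                  rw [← Real.rpow_natCast]; norm_num
                rw [e1, e2, mul_pow t s]
                ring
              rw [h1]
              have h2 : (1 : ℝ) ≤ t ^ ((2 * ν : ℝ) + (-2 * γ) + 2 * n) := by
                refine Real.one_le_rpow_of_pos_of_le_one_of_nonpos ht ht1.le ?_
                have h5 : (ν : ℝ) + 1 ≤ m := by exact_mod_cast hνm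
                linarith
              nlinarith [hκ0, h2]
          _ = ENNReal.ofReal ((t ^ ν * (c / 4)) ^ 2 * (t * R) ^ (-2 * γ)) *
              volume (Metric.closedBall (p + t • z0) (t * s)) := by
              rw [Measure.addHaar_closedBall _ _ (by positivity), finrank_E]
          _ = ∫⁻ y in Metric.closedBall (p + t • z0) (t * s),
              ENNReal.ofReal ((t ^ ν * (c / 4)) ^ 2 * (t * R) ^ (-2 * γ)) := by
              rw [setLIntegral_const]
          _ ≤ _ := setLIntegral_mono' measurableSet_closedBall hlb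
    · -- the volumes tend to zero
      have h1 : Tendsto (fun t : ℝ => ENNReal.ofReal ((t * s) ^ (2 * n)) * v) (𝓝[>] 0) (𝓝 0) := by
        have h2 : Tendsto (fun t : ℝ => ENNReal.ofReal ((t * s) ^ (2 * n))) (𝓝[>] 0) (𝓝 0) := by
          have h3 : Tendsto (fun t : ℝ => (t * s) ^ (2 * n)) (𝓝 0) (𝓝 ((0 * s) ^ (2 * n))) :=
            (by fun_prop : Continuous fun t : ℝ => (t * s) ^ (2 * n)).tendsto 0
          have h4 : ((0 : ℝ) * s) ^ (2 * n) = 0 := by
            rw [zero_mul]; exact zero_pow (by omega)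
          rw [h4] at h3
          have h5 := ENNReal.tendsto_ofReal (h3.mono_left (nhdsWithin_le_nhds (s := Ioi (0 : ℝ))))
          simpa using h5
        have h6 := ENNReal.Tendsto.mul_const h2 (Or.inr (measure_ball_lt_top.ne : v ≠ ⊤))
        simpa using h6
      refine h1.congr' ?_
      filter_upwards [self_mem_nhdsWithin] with t ht
      rw [Measure.addHaar_closedBall _ _ (mul_nonneg (le_of_lt ht) hs0.le), finrank_E]

end Pool.Agent.helper63.NU
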